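import Pool.Agent.helper23.TH.Spec

/-!
# MP_26dbae_co, module GLU: a closed walk is the union of two walks
-/

set_option autoImplicit false

namespace Pool.Agent.helper23.TH

/-- the sequence of the closed walk -/
def GLU_w {V : Type} (k : ℕ) (p q : Fin (k + 2) → V) (a : ℕ) : V :=
  if h : a ≤ k + 1 then p ⟨a, by omega⟩ else q ⟨2 * k + 2 - a, by omega⟩

theorem GLU_w_low {V : Type} {k : ℕ} {p q : Fin (k + 2) → V} {a : ℕ} (h : a ≤ k + 1) :
    GLU_w k p q a = p ⟨a, by omega⟩ := by
  unfold GLU_w; rw [dif_pos h]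

theorem GLU_w_high {V : Type} {k : ℕ} {p q : Fin (k + 2) → V}
    (hl : p (Fin.last (k + 1)) = q (Fin.last (k + 1))) {a : ℕ} (h : k + 1 ≤ a) :
    GLU_w k p q a = q ⟨2 * k + 2 - a, by omega⟩ := by
  unfold GLU_w
  split_ifs with h1
  · have e : a = k + 1 := by omega
    subst e
    have e1 : (⟨k + 1, by omega⟩ : Fin (k + 2)) = Fin.last (k + 1) := rfl
    have e2 : (⟨2 * k + 2 - (k + 1), by omega⟩ : Fin (k + 2)) = Fin.last (k + 1) := by
      ext; simp only [Fin.val_last]; omega
    rw [e1, e2, hl]
  · rfl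

theorem GLU_step {V : Type} {A : V → V → Prop} (hA : ∀ u v, A u v → A v u) {k : ℕ}
    {p q : Fin (k + 2) → V} (hp : Wk A (k + 1) p) (hq : Wk A (k + 1) q)
    (hl : p (Fin.last (k + 1)) = q (Fin.last (k + 1))) {a : ℕ} (ha : a < 2 * k + 2) :
    A (GLU_w k p q a) (GLU_w k p q (a + 1)) := by
  by_cases h : a + 1 ≤ k + 1
  · rw [GLU_w_low h, GLU_w_low (by omega)]
    exact hp ⟨a, by omega⟩
  · rw [GLU_w_high hl (show k + 1 ≤ a by omega), GLU_w_high hl (show k + 1 ≤ a + 1 by omega)]
    have := hq ⟨2 * k + 2 - (a + 1), by omega⟩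
    have e : (⟨2 * k + 2 - (a + 1), by omega⟩ : Fin (k + 1)).succ = (⟨2 * k + 2 - a, by omega⟩ : Fin (k + 2)) := by
      ext; simp only [Fin.succ_mk]; omega
    rw [e] at this
    exact hA _ _ this

theorem GLU : GLU_stmt := by
  intro V A hA k
  have hval : ∀ j : ZMod (2 * k + 2), j.val < 2 * k + 2 := fun j => ZMod.val_lt j
  have hcast : ∀ a : ℕ, a < 2 * k + 2 → ((a : ℕ) : ZMod (2 * k + 2)).val = a :=
    fun a ha => ZMod.val_cast_of_lt ha
  have hn : ((2 * k + 2 : ℕ) : ZMod (2 * k + 2)) = 0 := ZMod.natCast_self _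
  have hneg : ∀ a b : ℕ, a + b = 2 * k + 2 → -((a : ℕ) : ZMod (2 * k + 2)) = ((b : ℕ) : ZMod (2 * k + 2)) := by
    intro a b h
    rw [neg_eq_iff_add_eq_zero, ← Nat.cast_add, h, hn]
  refine ⟨?_, ?_, ?_⟩
  · intro z hz
    refine ⟨?_, ?_, ?_, ?_⟩
    · intro i
      have := hz ((i.1 : ℕ) : ZMod (2 * k + 2))
      simpa using this
    · intro i
      have := hz (-(((i.1 + 1 : ℕ)) : ZMod (2 * k + 2)))
      apply hA
      have e : -(((i.1 + 1 : ℕ)) : ZMod (2 * k + 2)) + 1 = -((i.1 : ℕ) : ZMod (2 * k + 2)) := by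
        push_cast; ring
      rw [e] at this
      simpa using this
    · simp
    · show z _ = z _
      congr 1
      exact (hneg (k + 1) (k + 1) (by ring)).symm
  · intro z _ z' _ h
    simp only [Prod.mk.injEq] at h
    obtain ⟨h1, h2⟩ := h
    funext j
    have hj := hval j
    by_cases hc : j.val ≤ k + 1
    · have := congrFun h1 ⟨j.val, by omega⟩
      simp only at this
      rwa [ZMod.natCast_zmod_val] at this
    · have := congrFun h2 ⟨2 * k + 2 - j.val, by omega⟩
      simp only at this
      rw [hneg _ j.val (by omega), ZMod.natCast_zmod_val] at this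
      exact this
  · rintro ⟨p, q⟩ ⟨hp, hq, h0, hl⟩
    simp only at hp hq h0 hl
    have hend : GLU_w k p q (2 * k + 2) = GLU_w k p q 0 := by
      rw [GLU_w_high hl (by omega), GLU_w_low (by omega)]
      have e1 : (⟨2 * k + 2 - (2 * k + 2), by omega⟩ : Fin (k + 2)) = 0 := by
        ext; simp
      rw [e1, ← h0]
      rfl
    refine ⟨fun j => GLU_w k p q j.val, ?_, ?_⟩
    · intro j
      have hj := hval j
      have e : GLU_w k p q (j + 1).val = GLU_w k p q (j.val + 1) := by
        by_cases hc : j.val + 1 < 2 * k + 2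
        · have : (j + 1).val = j.val + 1 := by
            conv_lhs => rw [← ZMod.natCast_zmod_val j]
            rw [← Nat.cast_succ, hcast _ hc]
          rw [this]
        · have h1 : j.val + 1 = 2 * k + 2 := by omega
          have h2 : j + 1 = 0 := by
            conv_lhs => rw [← ZMod.natCast_zmod_val j]
            rw [← Nat.cast_succ, Nat.succ_eq_add_one, h1, hn]
          rw [h2, h1, hend, ZMod.val_zero]
      show A (GLU_w k p q j.val) (GLU_w k p q (j + 1).val)
      rw [e]
      exact GLU_step hA hp hq hl hj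
    · simp only [Prod.mk.injEq]
      constructor
      · funext i
        rw [hcast _ (by omega), GLU_w_low (by omega)]
      · funext i
        rcases Nat.eq_zero_or_pos i.1 with hi | hi
        · have : i = 0 := Fin.ext hi
          subst this
          simp only [Fin.val_zero, Nat.cast_zero, neg_zero, ZMod.val_zero]
          rw [GLU_w_low (by omega)]
          exact h0
        · rw [hneg i.1 (2 * k + 2 - i.1) (by omega), hcast _ (by omega), GLU_w_high hl (by omega)]
          congr 1
          ext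
          simp only
          omega

end Pool.Agent.helper23.TH
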